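import Pool.Agent.H752.KM.Main

/-!
# How many oracles make `NP` small in `E₂` or in `E`?

Relative to an oracle `A`, `μ(NP | E₂) = 0` means that `NP ∩ E₂` has a null cover computable in
time `n ^ (log n) ^ O(1)`, and `μ(NP | E) = 0` that `NP ∩ E` has a null cover computable in
polynomial time. Both sets of oracles (and the set of the oracles relative to which `PSPACE` has
p-measure zero, and every set between it and the union of the two sets) are null sets for every
gauge `f` which is bounded on an infinite set of numbers, and they are not null sets for `f` if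
`f N` is, up to a constant, at least the number of the elements `n` with `2 ^ 2 ^ n ≤ N` of an
infinite tally set in `P`.
-/

namespace Pool.Agent.Results.MP_a0edbc_lc.GaugeSize

open Pool.Agent.NPC Pool.Agent.H620R2.Gauge Pool.Agent.H752.KM Filter

/-- `μ(NP | E₂) = 0` relative to `A` -/
def NPSmallInE2 (A : Oracle) : Prop := MNull quasiT A {L | IsNP A L ∧ DTime expT A L}

/-- `μ(NP | E) = 0` relative to `A` -/
def NPSmallInE (A : Oracle) : Prop := MNull polyT A {L | IsNP A L ∧ DTime linexpT A L}

theorem result :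
    {A | MNull polyT A {L | IsPSPACE A L}} ⊆ {A | NPSmallInE2 A} ∩ {A | NPSmallInE A} ∧
    ∀ (f : ℕ → ℝ) (O : Set Oracle), {A | MNull polyT A {L | IsPSPACE A L}} ⊆ O →
      O ⊆ {A | NPSmallInE2 A} ∪ {A | NPSmallInE A} →
      ((∃ C : ℝ, ∃ᶠ N in atTop, f N ≤ C) → Null f O) ∧
      ((∃ T, Tally T ∧ ∃ C : ℝ, ∀ᶠ N in atTop, (cnt T N : ℝ) ≤ f N + C) → ¬ Null f O) := by
  refine ⟨fun A hA => ⟨?_, ?_⟩, fun f O h1 h2 => gauge_np_e f O h1 (h2.trans ?_)⟩
  · exact (mono_holds A _ _ fun _ hL => IsNP.isPSPACE hL.1).2.2 hA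
  · exact (mono_holds A _ _ fun _ hL => IsNP.isPSPACE hL.1).1 hA
  · rintro A (hA | hA)
    · exact Or.inr hA
    · exact Or.inl hA

end Pool.Agent.Results.MP_a0edbc_lc.GaugeSize
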