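import Pool.Agent.H552R2.RM.F_A3
import Pool.Agent.H552R2.RM.F_UP
import Pool.Agent.H552R2.RM.F_E2
import Pool.Agent.H552R2.RM.F_PI3

/-!
A relativized world in which `NP` (even `UP ∩ coUP`) does not have measure zero in `E₂`, but
`NP` (even `PSPACE`) has measure zero in `E`.
-/

namespace Pool.Agent.Results.MP_a0edbc_lc.SeparateMeasures

open Pool.Agent.Helper556.OM Pool.Agent.H552R2 Pool.Agent.H552R2.RM

theorem null_mono {cls : ℕ → ℕ → ℕ} {A : Set (List Bool)} {X Y : Set (Set (List Bool))}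
    (h : Null cls A Y) (hXY : X ⊆ Y) : Null cls A X := by
  obtain ⟨d, f, c, h1, h2, h3, h4, h5, h6⟩ := h
  exact ⟨d, f, c, h1, h2, h3, h4, h5, fun k L hL => h6 k L (hXY hL)⟩

theorem main : ∃ A : Set (List Bool),
    ¬ Null quasi A {L | InUP A L ∧ InUP A Lᶜ ∧ InE2 A L} ∧
    Null poly A {L | (InNP A L ∨ InPSPACE A L) ∧ InE A L} := by
  obtain ⟨β, hβ⟩ := exists_answers true Phi
  obtain ⟨ω, h1, h2⟩ := ((not_null true β).and (predicted3 β)).exists
  refine ⟨orc true β ω, fun h => h1 (null_mono h ?_),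
    null_mono (null_predicted true Phi hβ ω) ?_⟩
  · rintro L ⟨e, -, rfl⟩
    exact ⟨lang_UP _ _ _ _, lang_coUP _ _ _, lang_E2 _ _ _ _⟩
  · rintro L ⟨h3, h4⟩
    exact h2 L h3 h4

theorem up_np {A L : Set (List Bool)} (h : InUP A L) : InNP A L := by
  obtain ⟨M, d, h⟩ := h
  exact ⟨M, d, fun x => ⟨(h x).1, (h x).2.1⟩⟩

theorem result : ∃ A : Set (List Bool),
    ¬ Null quasi A {L | InNP A L ∧ InE2 A L} ∧
    Null poly A {L | InNP A L ∧ InE A L} ∧
    ¬ Null quasi A {L | InUP A L ∧ InUP A Lᶜ ∧ InE2 A L} ∧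
    Null poly A {L | (InNP A L ∨ InPSPACE A L) ∧ InE A L} := by
  obtain ⟨A, h1, h2⟩ := main
  exact ⟨A, fun h => h1 (null_mono h fun L hL => ⟨up_np hL.1, hL.2.2⟩),
    null_mono h2 fun L hL => ⟨Or.inl hL.1, hL.2⟩, h1, h2⟩

end Pool.Agent.Results.MP_a0edbc_lc.SeparateMeasures
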